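import Pool.Agent.Helper9.PR.Lst

/-! Counting the labelings of a poset with a least element (MP_5db8eb_co). -/

set_option autoImplicit false
set_option linter.unusedSectionVars false

namespace Pool.Agent.Helper9.PR

open Pool.Agent.Results.MP_21b3ca_co.SeriesParallel
open scoped Nat

section C

variable {P : Type} [PartialOrder P] [Fintype P]

theorem rep_unique {L : P → ℕ} {l l' : List P} (h : Rep L l) (h' : Rep L l') : l = l' := by
  apply List.ext_getElem
  · rw [h.card, h'.card]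
  · intro i hi hi'
    apply h.inj
    rw [h.lab, h'.lab]

/-- the labeling of a list -/
theorem exists_lab (l : List P) (hnd : l.Nodup) (hm : ∀ x, x ∈ l) :
    ∃ L : P ≃ Fin (Fintype.card P), Rep (fun x => (L x : ℕ) + 1) l := by
  classical
  have hlen : l.length = Fintype.card P := by
    rw [← List.toFinset_card_of_nodup hnd, ← Finset.card_univ]
    congr 1
    ext x
    simp [hm x]
  let E : Fin l.length ≃ P := List.Nodup.getEquivOfForallMemList l hnd hm
  refine ⟨E.symm.trans (finCongr hlen), ⟨hnd, hm, ?_⟩⟩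
  intro i hi
  have h1 : E ⟨i, hi⟩ = l[i] := rfl
  have h2 : E.symm l[i] = ⟨i, hi⟩ := by rw [← h1, Equiv.symm_apply_apply]
  simp [h2]

variable [OrderBot P]

theorem ins_perm (i : ℕ) (w : List P) : List.Perm (ins i w) (⊥ :: w) := by
  unfold ins
  refine List.perm_middle.trans ?_
  rw [List.take_append_drop]

theorem ins_inj {i i' : ℕ} {w w' : List P} (hw : ⊥ ∉ w) (hw' : ⊥ ∉ w') (hi : i ≤ w.length)
    (hi' : i' ≤ w'.length) (h : ins i w = ins i' w') : i = i' ∧ w = w' := by
  unfold ins at h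
  rw [List.append_cons_inj_of_notMem (fun hx => hw (List.mem_of_mem_take hx))
    (fun hx => hw (List.mem_of_mem_drop hx))] at h
  obtain ⟨h1, -, h2⟩ := h
  constructor
  · have := congrArg List.length h1
    rw [List.length_take, List.length_take] at this
    omega
  · rw [← List.take_append_drop i w, ← List.take_append_drop i' w', h1, h2]

variable [Fintype {x : P // x ≠ ⊥}]

theorem card_eq : Fintype.card P = Fintype.card {x : P // x ≠ ⊥} + 1 := by
  classical
  rw [← Fintype.card_congr (Equiv.optionSubtypeNe (⊥ : P)), Fintype.card_option]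

/-- the list of a pair -/
noncomputable def lst (p : Fin (Fintype.card {x : P // x ≠ ⊥} + 1) ×
    ({x : P // x ≠ ⊥} ≃ Fin (Fintype.card {x : P // x ≠ ⊥}))) : List P :=
  ins (p.1 : ℕ) ((labList p.2).map Subtype.val)

theorem wlen (e : {x : P // x ≠ ⊥} ≃ Fin (Fintype.card {x : P // x ≠ ⊥})) :
    ((labList e).map Subtype.val).length = Fintype.card {x : P // x ≠ ⊥} := by
  rw [List.length_map, (labList_rep e).card]

theorem wbot (e : {x : P // x ≠ ⊥} ≃ Fin (Fintype.card {x : P // x ≠ ⊥})) :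
    ∀ x ∈ (labList e).map Subtype.val, x ≠ (⊥ : P) := by
  intro x hx
  obtain ⟨y, -, rfl⟩ := List.mem_map.1 hx
  exact y.2

theorem exists_G : ∃ G : Fin (Fintype.card {x : P // x ≠ ⊥} + 1) ×
    ({x : P // x ≠ ⊥} ≃ Fin (Fintype.card {x : P // x ≠ ⊥})) ≃ (P ≃ Fin (Fintype.card P)),
    ∀ p, Rep (fun x => (G p x : ℕ) + 1) (lst p) := by
  classical
  have h : ∀ p : Fin (Fintype.card {x : P // x ≠ ⊥} + 1) ×
      ({x : P // x ≠ ⊥} ≃ Fin (Fintype.card {x : P // x ≠ ⊥})),
      ∃ L : P ≃ Fin (Fintype.card P), Rep (fun x => (L x : ℕ) + 1) (lst p) := by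
    intro p
    apply exists_lab
    · unfold lst
      rw [(ins_perm _ _).nodup_iff, List.nodup_cons]
      exact ⟨fun hx => wbot p.2 _ hx rfl,
        (labList_rep p.2).nodup.map Subtype.val_injective⟩
    · intro x
      unfold lst
      rw [(ins_perm _ _).mem_iff, List.mem_cons]
      by_cases hx : x = ⊥
      · exact Or.inl hx
      · exact Or.inr (List.mem_map.2 ⟨⟨x, hx⟩, (labList_rep p.2).mem _, rfl⟩)
  choose G hG using h
  have hinj : Function.Injective G := by
    intro p p' hpp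
    have h1 := hG p
    rw [hpp] at h1
    have h2 := rep_unique h1 (hG p')
    unfold lst at h2
    obtain ⟨h3, h4⟩ := ins_inj (fun hx => wbot p.2 _ hx rfl) (fun hx => wbot p'.2 _ hx rfl)
      (by rw [wlen]; omega) (by rw [wlen]; omega) h2
    have h5 := labList_inj (List.map_injective_iff.2 Subtype.val_injective h4)
    exact Prod.ext (Fin.ext h3) h5
  have hcard : Fintype.card (Fin (Fintype.card {x : P // x ≠ ⊥} + 1) ×
      ({x : P // x ≠ ⊥} ≃ Fin (Fintype.card {x : P // x ≠ ⊥}))) =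
      Fintype.card (P ≃ Fin (Fintype.card P)) := by
    rw [Fintype.card_prod, Fintype.card_fin, Fintype.card_equiv (Fintype.equivFin _),
      Fintype.card_equiv (Fintype.equivFin _), card_eq (P := P), Nat.factorial_succ]
  exact ⟨Equiv.ofBijective G ((Fintype.bijective_iff_injective_and_card G).2 ⟨hinj, hcard⟩), hG⟩

theorem srt_lst (hn : 2 ≤ Fintype.card {x : P // x ≠ ⊥})
    (p : Fin (Fintype.card {x : P // x ≠ ⊥} + 1) ×
      ({x : P // x ≠ ⊥} ≃ Fin (Fintype.card {x : P // x ≠ ⊥}))) :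
    ¬ Srt (promL^[Fintype.card P - 3] (lst p)) ↔
      (Fintype.card {x : P // x ≠ ⊥} - 1 ≤ (p.1 : ℕ) ∨ Tangled (fun x => (p.2 x : ℕ) + 1)) := by
  have hk : Fintype.card P - 3 = Fintype.card {x : P // x ≠ ⊥} - 2 := by
    rw [card_eq (P := P)]
    omega
  have hne : (labList p.2).map Subtype.val ≠ [] := by
    intro h
    have := wlen p.2
    rw [h, List.length_nil] at this
    omega
  have hlen : (p.1 : ℕ) ≤ ((labList p.2).map Subtype.val).length := by
    rw [wlen]
    omega
  rw [hk, tangled_iff hn (labList_rep p.2)]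
  unfold lst
  rw [promL_iter_ins _ _ hne (wbot p.2) hlen]
  have hperm := promL_iter_perm ((labList p.2).map Subtype.val)
    (Fintype.card {x : P // x ≠ ⊥} - 2)
  by_cases h : Fintype.card {x : P // x ≠ ⊥} - 1 ≤ (p.1 : ℕ)
  · refine iff_of_true ?_ (Or.inl h)
    apply not_srt_ins
    · intro h0
      rw [h0] at hperm
      exact hne hperm.symm.eq_nil
    · intro x hx
      exact wbot p.2 x (hperm.mem_iff.1 hx)
    · omega
  · have h0 : (p.1 : ℕ) - (Fintype.card {x : P // x ≠ ⊥} - 2) = 0 := by omega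
    rw [h0, srt_ins_zero, promL_iter_map Subtype.val (fun _ _ => Iff.rfl),
      srt_map Subtype.val (fun _ _ => Iff.rfl)]
    exact ⟨Or.inr, fun h' => h'.resolve_left h⟩

theorem count_eq (hn : 2 ≤ Fintype.card {x : P // x ≠ ⊥}) :
    Nat.card {L : P ≃ Fin (Fintype.card P) //
      ¬ IsLinExt (promo^[Fintype.card P - 3] fun x => (L x : ℕ) + 1)} =
    2 * (Fintype.card P - 1)! + (Fintype.card P - 2) *
      Nat.card {L : {x : P // x ≠ ⊥} ≃ Fin (Fintype.card {x : P // x ≠ ⊥}) //
        Tangled (fun x => (L x : ℕ) + 1)} := by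
  classical
  obtain ⟨G, hG⟩ := exists_G (P := P)
  have e1 : {p : Fin (Fintype.card {x : P // x ≠ ⊥} + 1) ×
      ({x : P // x ≠ ⊥} ≃ Fin (Fintype.card {x : P // x ≠ ⊥})) //
      Fintype.card {x : P // x ≠ ⊥} - 1 ≤ (p.1 : ℕ) ∨ Tangled (fun x => (p.2 x : ℕ) + 1)} ≃
      {L : P ≃ Fin (Fintype.card P) //
      ¬ IsLinExt (promo^[Fintype.card P - 3] fun x => (L x : ℕ) + 1)} := by
    refine G.subtypeEquiv fun p => ?_
    rw [rep_srt ((hG p).iter _)]
    exact (srt_lst hn p).symm
  rw [← Nat.card_congr e1]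
  rw [Nat.card_congr (Equiv.subtypeProdEquivSigmaSubtype
    (fun (i : Fin (Fintype.card {x : P // x ≠ ⊥} + 1))
      (e : {x : P // x ≠ ⊥} ≃ Fin (Fintype.card {x : P // x ≠ ⊥})) =>
      Fintype.card {x : P // x ≠ ⊥} - 1 ≤ (i : ℕ) ∨ Tangled (fun x => (e x : ℕ) + 1)))]
  rw [Nat.card_sigma]
  rw [card_eq (P := P)]
  obtain ⟨M, hM⟩ : ∃ M, Fintype.card {x : P // x ≠ ⊥} = M + 1 :=
    ⟨Fintype.card {x : P // x ≠ ⊥} - 1, by omega⟩
  have hfac : Nat.card ({x : P // x ≠ ⊥} ≃ Fin (Fintype.card {x : P // x ≠ ⊥})) =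
      (Fintype.card {x : P // x ≠ ⊥})! := by
    rw [Nat.card_eq_fintype_card, Fintype.card_equiv (Fintype.equivFin _)]
  have hT : ∀ i : Fin (Fintype.card {x : P // x ≠ ⊥} + 1),
      Nat.card {e : {x : P // x ≠ ⊥} ≃ Fin (Fintype.card {x : P // x ≠ ⊥}) //
        Fintype.card {x : P // x ≠ ⊥} - 1 ≤ (i : ℕ) ∨ Tangled (fun x => (e x : ℕ) + 1)} =
      if (i : ℕ) < Fintype.card {x : P // x ≠ ⊥} - 1 then
        Nat.card {e : {x : P // x ≠ ⊥} ≃ Fin (Fintype.card {x : P // x ≠ ⊥}) //
          Tangled (fun x => (e x : ℕ) + 1)}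
      else (Fintype.card {x : P // x ≠ ⊥})! := by
    intro i
    split_ifs with h
    · refine Nat.card_congr (Equiv.subtypeEquivRight fun e => ?_)
      constructor
      · rintro (h1 | h1)
        · omega
        · exact h1
      · exact Or.inr
    · rw [← hfac]
      exact Nat.card_congr (Equiv.subtypeUnivEquiv fun e => Or.inl (by omega))
  rw [Finset.sum_congr rfl fun i _ => hT i]
  rw [Fin.sum_univ_eq_sum_range (fun i => if i < Fintype.card {x : P // x ≠ ⊥} - 1 then
        Nat.card {e : {x : P // x ≠ ⊥} ≃ Fin (Fintype.card {x : P // x ≠ ⊥}) //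
          Tangled (fun x => (e x : ℕ) + 1)}
      else (Fintype.card {x : P // x ≠ ⊥})!)]
  rw [Finset.sum_ite, Finset.sum_const, Finset.sum_const]
  have c1 : ((Finset.range (Fintype.card {x : P // x ≠ ⊥} + 1)).filter fun i =>
      i < Fintype.card {x : P // x ≠ ⊥} - 1).card = Fintype.card {x : P // x ≠ ⊥} - 1 := by
    have : ((Finset.range (Fintype.card {x : P // x ≠ ⊥} + 1)).filter fun i =>
      i < Fintype.card {x : P // x ≠ ⊥} - 1) =
        Finset.range (Fintype.card {x : P // x ≠ ⊥} - 1) := by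
      ext i
      simp only [Finset.mem_filter, Finset.mem_range]
      omega
    rw [this, Finset.card_range]
  have c2 : ((Finset.range (Fintype.card {x : P // x ≠ ⊥} + 1)).filter fun i =>
      ¬ i < Fintype.card {x : P // x ≠ ⊥} - 1).card = 2 := by
    have := Finset.card_filter_add_card_filter_not
      (s := Finset.range (Fintype.card {x : P // x ≠ ⊥} + 1))
      (fun i => i < Fintype.card {x : P // x ≠ ⊥} - 1)
    rw [c1, Finset.card_range] at this
    omega
  rw [c1, c2, smul_eq_mul, smul_eq_mul, Nat.add_sub_cancel, add_comm]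
  rfl

theorem bound (hn : 2 ≤ Fintype.card {x : P // x ≠ ⊥})
    (h : NFree {x : P // x ≠ ⊥} ∨ Good (Finset.univ : Finset {x : P // x ≠ ⊥})) :
    Nat.card {L : P ≃ Fin (Fintype.card P) //
      ¬ IsLinExt (promo^[Fintype.card P - 3] fun x => (L x : ℕ) + 1)} +
      (open Classical in (Finset.univ.filter
        (fun x : {x : P // x ≠ ⊥} => IsMin x)).card) * (Fintype.card P - 2)! ≤
      3 * (Fintype.card P - 1)! := by
  classical
  have h1 := Pool.Agent.Results.MP_21b3ca_co.SeriesParallel.result hn h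
  rw [count_eq hn, card_eq (P := P)]
  set T := Nat.card {L : {x : P // x ≠ ⊥} ≃ Fin (Fintype.card {x : P // x ≠ ⊥}) //
        Tangled (fun x => (L x : ℕ) + 1)}
  have hs : (Finset.univ.filter (fun x : {x : P // x ≠ ⊥} => IsMin x)).card ≤
      Fintype.card {x : P // x ≠ ⊥} := Finset.card_le_univ _
  set s := (Finset.univ.filter (fun x : {x : P // x ≠ ⊥} => IsMin x)).card
  obtain ⟨M, hM⟩ : ∃ M, Fintype.card {x : P // x ≠ ⊥} = M + 2 :=
    ⟨Fintype.card {x : P // x ≠ ⊥} - 2, by omega⟩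
  rw [hM] at h1 hs ⊢
  have e1 : M + 2 + 1 - 1 = M + 2 := by omega
  have e2 : M + 2 + 1 - 2 = M + 1 := by omega
  have e3 : M + 2 - 2 = M := by omega
  rw [e1, e2]
  rw [e3] at h1
  obtain ⟨r, hr⟩ : ∃ r, M + 2 = s + r := ⟨M + 2 - s, by omega⟩
  have e4 : M + 2 - s = r := by omega
  rw [e4] at h1
  have h2 : (M + 1) * T ≤ r * (M + 1)! := by
    calc (M + 1) * T ≤ (M + 1) * (r * M !) := Nat.mul_le_mul_left _ h1
      _ = r * (M + 1)! := by rw [Nat.factorial_succ]; ring
  have h3 : (M + 2)! = (s + r) * (M + 1)! := by rw [← hr, Nat.factorial_succ]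
  calc 2 * (M + 2)! + (M + 1) * T + s * (M + 1)!
      ≤ 2 * (M + 2)! + r * (M + 1)! + s * (M + 1)! := by omega
    _ = 3 * (M + 2)! := by rw [h3]; ring

end C

end Pool.Agent.Helper9.PR
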