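import Pool.Agent.Results.MP_21b3ca_co.SeriesParallel

/-! Extended promotion on a poset with a least element (MP_5db8eb_co). -/

set_option autoImplicit false

namespace Pool.Agent.Helper9.PR

open Pool.Agent.Results.MP_21b3ca_co.SeriesParallel

section L

variable {P : Type} [PartialOrder P]

/-- no inversion -/
def Srt (l : List P) : Prop := l.Pairwise (fun a b => ¬ b < a)

theorem rep_srt {L : P → ℕ} {l : List P} (h : Rep L l) : IsLinExt L ↔ Srt l := by
  constructor
  · intro hL
    unfold Srt
    rw [List.pairwise_iff_getElem]
    intro i j hi hj hij hlt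
    have h1 := hL _ _ hlt
    rw [h.lab, h.lab] at h1
    omega
  · exact h.linExt

theorem promL_perm (l : List P) : List.Perm (promL l) l := by
  cases l with
  | nil => simp [promL]
  | cons c t =>
    simp only [promL]
    exact (List.perm_append_singleton _ _).trans (row_perm c t)

theorem promL_iter_perm (l : List P) (k : ℕ) : List.Perm (promL^[k] l) l := by
  induction k with
  | zero => simp
  | succ k ih =>
    rw [Function.iterate_succ_apply']
    exact (promL_perm _).trans ih

theorem srt_promL {l : List P} (h : Srt l) : Srt (promL l) := by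
  cases l with
  | nil => simpa [promL] using h
  | cons c t =>
    unfold Srt at h
    rw [List.pairwise_cons] at h
    exact row_pairwise c t h.2 h.1

theorem srt_iter {l : List P} (h : Srt l) (k : ℕ) : Srt (promL^[k] l) := by
  induction k with
  | zero => simpa using h
  | succ k ih =>
    rw [Function.iterate_succ_apply']
    exact srt_promL ih

theorem srt_last (l : List P) (hl : 1 ≤ l.length) : Srt (promL^[l.length - 1] l) := by
  obtain ⟨R, h1, h2, h3⟩ := promL_iter l (l.length - 1) (by omega)
  have hS := strm_iter_length l (l.length - 1)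
  obtain ⟨a, ha⟩ : ∃ a, strm^[l.length - 1] l = [a] := by
    apply List.length_eq_one_iff.1
    rw [hS]
    omega
  rw [ha] at h1 h3
  rw [h1]
  unfold Srt
  simp only [List.cons_append, List.nil_append, List.pairwise_cons]
  exact ⟨fun x hx => h3 a (by simp) x hx, h2⟩

/-- tangled labelings -/
theorem tangled_iff [Fintype P] (hn : 2 ≤ Fintype.card P) {L : P → ℕ} {l : List P} (h : Rep L l) :
    Tangled L ↔ ¬ Srt (promL^[Fintype.card P - 2] l) := by
  have hlen := h.card
  constructor
  · intro ht hs
    have h1 : Fintype.card P - 2 ∈ {k : ℕ | IsLinExt (promo^[k] L)} :=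
      (rep_srt (h.iter _)).2 hs
    have := ht.2 h1
    omega
  · intro hs
    refine ⟨(rep_srt (h.iter _)).2 ?_, ?_⟩
    · rw [← hlen]
      exact srt_last l (by omega)
    · intro j hj
      by_contra hcon
      apply hs
      have h1 := (rep_srt (h.iter j)).1 hj
      have h2 := srt_iter h1 (Fintype.card P - 2 - j)
      rw [← Function.iterate_add_apply] at h2
      have h3 : Fintype.card P - 2 - j + j = Fintype.card P - 2 := by omega
      rwa [h3] at h2

theorem row_map {Q : Type} [PartialOrder Q] (f : Q → P) (hf : ∀ a b, f a < f b ↔ a < b) (c : Q)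
    (t : List Q) : row (f c) (t.map f) = (f (row c t).1, (row c t).2.map f) := by
  induction t generalizing c with
  | nil => simp [row]
  | cons a l ih =>
    rw [List.map_cons]
    by_cases h : c < a
    · rw [row_cons_lt _ ((hf _ _).2 h), row_cons_lt _ h, ih a]
      simp
    · rw [row_cons_not_lt _ (fun h' => h ((hf _ _).1 h')), row_cons_not_lt _ h, ih c]
      simp

theorem promL_map {Q : Type} [PartialOrder Q] (f : Q → P) (hf : ∀ a b, f a < f b ↔ a < b)
    (t : List Q) : promL (t.map f) = (promL t).map f := by
  cases t with
  | nil => simp [promL]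
  | cons c t =>
    rw [List.map_cons]
    simp only [promL]
    rw [row_map f hf]
    simp

theorem promL_iter_map {Q : Type} [PartialOrder Q] (f : Q → P) (hf : ∀ a b, f a < f b ↔ a < b)
    (t : List Q) (k : ℕ) : promL^[k] (t.map f) = (promL^[k] t).map f := by
  induction k with
  | zero => simp
  | succ k ih =>
    rw [Function.iterate_succ_apply', Function.iterate_succ_apply', ih, promL_map f hf]

theorem srt_map {Q : Type} [PartialOrder Q] (f : Q → P) (hf : ∀ a b, f a < f b ↔ a < b)
    (t : List Q) : Srt (t.map f) ↔ Srt t := by
  unfold Srt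
  rw [List.pairwise_map]
  constructor
  · intro h
    exact h.imp fun hab hba => hab ((hf _ _).2 hba)
  · intro h
    exact h.imp fun hab hba => hab ((hf _ _).1 hba)

variable [OrderBot P]

/-- insertion of the least element -/
def ins (i : ℕ) (w : List P) : List P := w.take i ++ ⊥ :: w.drop i

theorem promL_ins (i : ℕ) (w : List P) (hw : w ≠ []) (hb : ∀ x ∈ w, x ≠ ⊥) (hi : i ≤ w.length) :
    promL (ins i w) = ins (i - 1) (promL w) := by
  unfold ins
  cases w with
  | nil => exact absurd rfl hw
  | cons c t =>
    cases i with
    | zero =>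
      have hc : (⊥ : P) < c := bot_lt_iff_ne_bot.2 (hb c (by simp))
      simp only [List.take_zero, List.nil_append, List.drop_zero, promL, Nat.zero_sub]
      rw [row_cons_lt _ hc]
      simp
    | succ j =>
      have hj : j ≤ t.length := by simpa using hi
      simp only [List.take_succ_cons, List.drop_succ_cons, List.cons_append, promL,
        Nat.add_sub_cancel]
      have ht : t = t.take j ++ t.drop j := (List.take_append_drop j t).symm
      have h1 : row c (t.take j ++ ⊥ :: t.drop j) =
          ((row (row c (t.take j)).1 (t.drop j)).1,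
            (row c (t.take j)).2 ++ ⊥ :: (row (row c (t.take j)).1 (t.drop j)).2) := by
        rw [row_append, row_cons_not_lt _ not_lt_bot]
      have h2 : row c t = ((row (row c (t.take j)).1 (t.drop j)).1,
            (row c (t.take j)).2 ++ (row (row c (t.take j)).1 (t.drop j)).2) := by
        conv_lhs => rw [ht]
        rw [row_append]
      have h3 : (row c (t.take j)).2.length = j := by
        rw [row_length, List.length_take]
        omega
      rw [h1, h2]
      simp only [List.append_assoc, List.cons_append]
      rw [List.take_left' h3, List.drop_left' h3]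

theorem promL_iter_ins (i : ℕ) (w : List P) (hw : w ≠ []) (hb : ∀ x ∈ w, x ≠ ⊥)
    (hi : i ≤ w.length) (k : ℕ) : promL^[k] (ins i w) = ins (i - k) (promL^[k] w) := by
  induction k with
  | zero => simp
  | succ k ih =>
    have hp := promL_iter_perm w k
    rw [Function.iterate_succ_apply', ih, promL_ins, Function.iterate_succ_apply', Nat.sub_sub]
    · intro h
      rw [h] at hp
      exact hw (hp.symm.eq_nil)
    · intro x hx
      exact hb x (hp.mem_iff.1 hx)
    · rw [hp.length_eq]
      omega

theorem srt_ins_zero (w : List P) : Srt (ins 0 w) ↔ Srt w := by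
  unfold Srt ins
  simp

theorem not_srt_ins (i : ℕ) (w : List P) (hw : w ≠ []) (hb : ∀ x ∈ w, x ≠ ⊥) (hi : 1 ≤ i) :
    ¬ Srt (ins i w) := by
  unfold Srt ins
  cases w with
  | nil => exact absurd rfl hw
  | cons c t =>
    obtain ⟨j, rfl⟩ : ∃ j, i = j + 1 := ⟨i - 1, by omega⟩
    rw [List.take_succ_cons, List.cons_append, List.pairwise_cons]
    rintro ⟨h, -⟩
    exact h ⊥ (by simp) (bot_lt_iff_ne_bot.2 (hb c (by simp)))

end L

end Pool.Agent.Helper9.PR
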